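import Mathlib

set_option autoImplicit false

namespace Pool.Agent.Helper61.Haar

open TopologicalSpace Topology
open scoped Pointwise

variable {G : Type*} [TopologicalSpace G] [AddCommGroup G] [IsTopologicalAddGroup G]

/-- A Borel maximal separated set for a finite symmetric set of differences. -/
lemma exists_sep [PolishSpace G] [MeasurableSpace G] [BorelSpace G]
    (D : Finset G) (h0 : (0 : G) ∈ D) (hsym : ∀ d ∈ D, -d ∈ D) :
    ∃ A : Set G, MeasurableSet A ∧ (∀ a ∈ A, ∀ b ∈ A, a - b ∈ D → a = b) ∧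
      ∀ x, ∃ d ∈ D, x + d ∈ A := by
  classical
  -- a neighbourhood `W` of `0` with `(W - W) ∩ D ⊆ {0}`
  obtain ⟨W, hWo, hW0, hWD⟩ : ∃ W : Set G, IsOpen W ∧ (0 : G) ∈ W ∧
      ∀ a ∈ W, ∀ b ∈ W, a - b ∈ D → a = b := by
    have hfin : (((D.erase 0 : Finset G) : Set G)ᶜ) ∈ 𝓝 (0 : G) := by
      apply (D.erase 0).finite_toSet.isClosed.isOpen_compl.mem_nhds
      simp
    have hsub : Filter.Tendsto (fun p : G × G => p.1 - p.2) (𝓝 ((0 : G), (0 : G))) (𝓝 (0 : G)) := by
      have : Continuous (fun p : G × G => p.1 - p.2) := by fun_prop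
      simpa using this.tendsto ((0 : G), (0 : G))
    have h1 := hsub hfin
    rw [Filter.mem_map, nhds_prod_eq, Filter.mem_prod_self_iff] at h1
    obtain ⟨V, hV, hVV⟩ := h1
    obtain ⟨W, hWV, hWo, hW0⟩ := mem_nhds_iff.mp hV
    refine ⟨W, hWo, hW0, fun a ha b hb hab => ?_⟩
    have h2 : (a, b) ∈ V ×ˢ V := ⟨hWV ha, hWV hb⟩
    have h3 := hVV h2
    simp only [Set.mem_preimage, Set.mem_compl_iff, Finset.mem_coe, Finset.mem_erase, not_and]
      at h3
    by_contra hne
    exact h3 (sub_ne_zero.mpr hne) hab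
  -- countable cover by translates
  obtain ⟨T, hTc, hTu⟩ : ∃ T : Set G, T.Countable ∧
      (⋃ x ∈ T, (fun y => y - x) ⁻¹' W) = Set.univ := by
    have := TopologicalSpace.countable_cover_nhds (α := G)
      (f := fun x => (fun y => y - x) ⁻¹' W) (fun x => by
        apply (hWo.preimage (by fun_prop)).mem_nhds
        simpa using hW0)
    exact this
  have hTne : T.Nonempty := by
    by_contra h
    rw [Set.not_nonempty_iff_eq_empty] at h
    rw [h] at hTu
    simp only [Set.mem_empty_iff_false, Set.iUnion_of_empty, Set.iUnion_empty] at hTu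
    exact (Set.empty_ne_univ hTu).elim
  obtain ⟨t, ht⟩ := hTc.exists_eq_range hTne
  let Bn : ℕ → Set G := fun i => (fun y => y - t i) ⁻¹' W
  have hBcov : ∀ x, ∃ i, x ∈ Bn i := by
    intro x
    have : x ∈ (⋃ x ∈ T, (fun y => y - x) ⁻¹' W) := by rw [hTu]; trivial
    simp only [Set.mem_iUnion] at this
    obtain ⟨y, hy, hxy⟩ := this
    rw [ht] at hy
    obtain ⟨i, rfl⟩ := hy
    exact ⟨i, hxy⟩
  have hBm : ∀ i, MeasurableSet (Bn i) := fun i =>
    (hWo.preimage (by fun_prop)).measurableSet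
  have hBD : ∀ i, ∀ a ∈ Bn i, ∀ b ∈ Bn i, a - b ∈ D → a = b := by
    intro i a ha b hb hab
    have := hWD _ ha _ hb (by simpa using hab)
    exact sub_left_injective this
  -- greedy sets
  let An : ℕ → Set G := fun n => Nat.rec ∅
    (fun i A => A ∪ (Bn i \ ⋃ d ∈ D, (fun y => y + d) ⁻¹' A)) n
  have hA0 : An 0 = ∅ := rfl
  have hAs : ∀ n, An (n + 1) = An n ∪ (Bn n \ ⋃ d ∈ D, (fun y => y + d) ⁻¹' (An n)) :=
    fun n => rfl
  have hAm : ∀ n, MeasurableSet (An n) := by
    intro n
    induction n with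
    | zero => rw [hA0]; exact MeasurableSet.empty
    | succ n ih =>
      rw [hAs]
      refine ih.union ((hBm n).diff (Finset.measurableSet_biUnion _ fun d _ => ?_))
      exact (measurable_add_const d) ih
  have hAmono : Monotone An := by
    apply monotone_nat_of_le_succ
    intro n
    rw [hAs]
    exact Set.subset_union_left
  have hAsep : ∀ n, ∀ a ∈ An n, ∀ b ∈ An n, a - b ∈ D → a = b := by
    intro n
    induction n with
    | zero => intro a ha; rw [hA0] at ha; exact ha.elim
    | succ n ih =>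
      intro a ha b hb hab
      rw [hAs] at ha hb
      rcases ha with ha | ha
      · rcases hb with hb | hb
        · exact ih a ha b hb hab
        · exfalso
          apply hb.2
          simp only [Set.mem_iUnion, Set.mem_preimage]
          refine ⟨a - b, hab, ?_⟩
          simpa using ha
      · rcases hb with hb | hb
        · exfalso
          apply ha.2
          simp only [Set.mem_iUnion, Set.mem_preimage]
          refine ⟨-(a - b), hsym _ hab, ?_⟩
          simpa using hb
        · exact hBD n a ha.1 b hb.1 hab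
  refine ⟨⋃ n, An n, MeasurableSet.iUnion hAm, ?_, ?_⟩
  · intro a ha b hb hab
    obtain ⟨n, hn⟩ := Set.mem_iUnion.mp ha
    obtain ⟨m, hm⟩ := Set.mem_iUnion.mp hb
    exact hAsep (max n m) a (hAmono (le_max_left _ _) hn) b (hAmono (le_max_right _ _) hm) hab
  · intro x
    obtain ⟨i, hi⟩ := hBcov x
    by_cases hx : x ∈ ⋃ d ∈ D, (fun y => y + d) ⁻¹' (An i)
    · simp only [Set.mem_iUnion, Set.mem_preimage] at hx
      obtain ⟨d, hd, hxd⟩ := hx
      exact ⟨d, hd, Set.mem_iUnion.mpr ⟨i, hxd⟩⟩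
    · refine ⟨0, h0, Set.mem_iUnion.mpr ⟨i + 1, ?_⟩⟩
      rw [hAs, add_zero]
      exact Or.inr ⟨hi, hx⟩

/-- neighbourhoods of `0` in an uncountable Polish group are infinite. -/
lemma nhds_infinite [PolishSpace G] (hu : Uncountable G) (U : Set G) (hU : U ∈ 𝓝 (0 : G)) :
    U.Infinite := by
  by_cases h : (𝓝[≠] (0 : G)) = ⊥
  · exfalso
    have h1 : IsOpen ({0} : Set G) := isOpen_singleton_iff_punctured_nhds (0 : G) |>.mpr h
    have : DiscreteTopology G := discreteTopology_iff_isOpen_singleton_zero.mpr h1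
    have h2 : Countable G := TopologicalSpace.separableSpace_iff_countable.mp inferInstance
    exact (not_countable_iff.mpr hu) h2
  · have : (𝓝[≠] (0 : G)).NeBot := ⟨h⟩
    exact infinite_of_mem_nhds (0 : G) hU

/-- finite subgroups in the bounded order case. -/
lemma exists_subgroup [PolishSpace G] (hu : Uncountable G) (V : Set G) (hV : V ∈ 𝓝 (0 : G))
    (m : ℕ) (hm : ∀ x ∈ V, ∃ j, 1 ≤ j ∧ j < m ∧ j • x = 0) (k : ℕ) :
    ∀ U ∈ 𝓝 (0 : G), ∃ E : AddSubgroup G, (E : Set G).Finite ∧ (E : Set G) ⊆ U ∧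
      k ≤ (E : Set G).ncard := by
  induction k with
  | zero =>
    intro U hU
    exact ⟨⊥, by simp, by simpa using mem_of_mem_nhds hU, Nat.zero_le _⟩
  | succ k ih =>
    intro U hU
    -- `U' + U' ⊆ U`
    have hadd : Filter.Tendsto (fun p : G × G => p.1 + p.2) (𝓝 ((0 : G), (0 : G)))
        (𝓝 (0 : G)) := by
      have : Continuous (fun p : G × G => p.1 + p.2) := by fun_prop
      simpa using this.tendsto ((0 : G), (0 : G))
    have h1 := hadd hU
    rw [Filter.mem_map, nhds_prod_eq, Filter.mem_prod_self_iff] at h1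
    obtain ⟨U', hU', hUU'⟩ := h1
    obtain ⟨E, hEf, hEU, hEk⟩ := ih U' hU'
    -- small `x`
    have hsm : ∀ j : ℕ, {x : G | j • x ∈ U'} ∈ 𝓝 (0 : G) := by
      intro j
      have : Continuous (fun x : G => j • x) := by fun_prop
      have h2 := this.tendsto (0 : G)
      simp only [smul_zero] at h2
      exact h2 hU'
    have hW : (V ∩ ⋂ j ∈ Finset.range m, {x : G | j • x ∈ U'}) ∈ 𝓝 (0 : G) :=
      Filter.inter_mem hV ((Filter.biInter_finset_mem _).mpr fun j _ => hsm j)
    obtain ⟨x, hxW, hxE⟩ := (nhds_infinite hu _ hW).exists_notMem_finite hEf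
    obtain ⟨hxV, hxj⟩ := hxW
    simp only [Finset.mem_range, Set.mem_iInter, Set.mem_ofPred_eq] at hxj
    obtain ⟨j0, hj1, hjm, hj0⟩ := hm x hxV
    have hmem : ∀ y ∈ E ⊔ AddSubgroup.zmultiples x, ∃ e ∈ E, ∃ j : ℕ, j < m ∧ y = e + j • x := by
      intro y hy
      obtain ⟨e, he, z, hz, rfl⟩ := AddSubgroup.mem_sup.mp hy
      obtain ⟨n, rfl⟩ := AddSubgroup.mem_zmultiples_iff.mp hz
      refine ⟨e, he, (n % j0).toNat, ?_, ?_⟩
      · have h3 : 0 ≤ n % j0 := Int.emod_nonneg _ (by omega)
        have h4 : n % j0 < j0 := Int.emod_lt_of_pos _ (by omega)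
        omega
      · congr 1
        have h3 : 0 ≤ n % j0 := Int.emod_nonneg _ (by omega)
        rw [← natCast_zsmul, Int.toNat_of_nonneg h3]
        conv_lhs => rw [← Int.emod_add_mul_ediv n j0]
        rw [add_zsmul, mul_comm, mul_zsmul]
        simp [hj0]
    refine ⟨E ⊔ AddSubgroup.zmultiples x, ?_, ?_, ?_⟩
    · have : ((E ⊔ AddSubgroup.zmultiples x : AddSubgroup G) : Set G) ⊆
          (fun p : G × ℕ => p.1 + p.2 • x) '' ((E : Set G) ×ˢ (Finset.range m : Set ℕ)) := by
        intro y hy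
        obtain ⟨e, he, j, hj, rfl⟩ := hmem y hy
        exact ⟨(e, j), ⟨he, by simpa using hj⟩, rfl⟩
      exact Set.Finite.subset ((hEf.prod (Finset.finite_toSet _)).image _) this
    · intro y hy
      obtain ⟨e, he, j, hj, rfl⟩ := hmem y hy
      exact hUU' (show (e, j • x) ∈ U' ×ˢ U' from ⟨hEU he, hxj j hj⟩)
    · have hfin : ((E ⊔ AddSubgroup.zmultiples x : AddSubgroup G) : Set G).Finite := by
        have : ((E ⊔ AddSubgroup.zmultiples x : AddSubgroup G) : Set G) ⊆
            (fun p : G × ℕ => p.1 + p.2 • x) '' ((E : Set G) ×ˢ (Finset.range m : Set ℕ)) := by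
          intro y hy
          obtain ⟨e, he, j, hj, rfl⟩ := hmem y hy
          exact ⟨(e, j), ⟨he, by simpa using hj⟩, rfl⟩
        exact Set.Finite.subset ((hEf.prod (Finset.finite_toSet _)).image _) this
      have hss : (E : Set G) ⊂ ((E ⊔ AddSubgroup.zmultiples x : AddSubgroup G) : Set G) := by
        refine ⟨fun y hy => (le_sup_left : E ≤ _) hy, fun h => hxE ?_⟩
        exact h ((le_sup_right : AddSubgroup.zmultiples x ≤ _)
          (AddSubgroup.mem_zmultiples x))
      have := Set.ncard_lt_ncard hss hfin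
      omega

/-- finite sets with small tripling near `0`. -/
lemma exists_E [PolishSpace G] [DecidableEq G] (hu : Uncountable G) (U : Set G)
    (hU : U ∈ 𝓝 (0 : G)) (k : ℕ) :
    ∃ E : Finset G, k ≤ E.card ∧ 0 < E.card ∧ (∀ x ∈ E, ∀ y ∈ E, x - y ∈ U) ∧
      (E - E + E).card ≤ 3 * E.card := by
  by_cases hcase : ∀ V ∈ 𝓝 (0 : G), ∃ x ∈ V, ∀ j, 1 ≤ j → j < k + 1 → j • x ≠ 0
  · -- arithmetic progression
    have hsm : ∀ j : ℤ, {x : G | j • x ∈ U} ∈ 𝓝 (0 : G) := by
      intro j
      have : Continuous (fun x : G => j • x) := by fun_prop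
      have h2 := this.tendsto (0 : G)
      simp only [smul_zero] at h2
      exact h2 hU
    obtain ⟨x, hxV, hx⟩ := hcase (⋂ j ∈ Finset.Icc (-(k:ℤ)) k, {x : G | j • x ∈ U})
      ((Filter.biInter_finset_mem _).mpr fun j _ => hsm j)
    simp only [Set.mem_iInter, Set.mem_ofPred_eq, Finset.mem_Icc] at hxV
    have hinj : Set.InjOn (fun j : ℕ => j • x) (Finset.range (k + 1) : Set ℕ) := by
      intro a ha b hb hab
      simp only [Finset.coe_range, Set.mem_Iio] at ha hb
      by_contra hne
      rcases Nat.lt_or_gt_of_ne hne with h | h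
      · apply hx (b - a) (by omega) (by omega)
        have : (b - a) • x + a • x = b • x := by
          rw [← add_nsmul]; congr 1; omega
        have hab' : a • x = b • x := hab
        rw [hab'] at this
        simpa using this
      · apply hx (a - b) (by omega) (by omega)
        have : (a - b) • x + b • x = a • x := by
          rw [← add_nsmul]; congr 1; omega
        have hab' : a • x = b • x := hab
        rw [← hab'] at this
        simpa using this
    refine ⟨(Finset.range (k + 1)).image (fun j : ℕ => j • x), ?_, ?_, ?_, ?_⟩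
    · rw [Finset.card_image_of_injOn hinj]; simp
    · rw [Finset.card_image_of_injOn hinj]; simp
    · intro a ha b hb
      simp only [Finset.mem_image, Finset.mem_range] at ha hb
      obtain ⟨i, hi, rfl⟩ := ha
      obtain ⟨j, hj, rfl⟩ := hb
      have := hxV ((i:ℤ) - j) ⟨by omega, by omega⟩
      rwa [sub_zsmul, natCast_zsmul, natCast_zsmul, ← sub_eq_add_neg] at this
    · rw [Finset.card_image_of_injOn hinj, Finset.card_range]
      have hsub : ((Finset.range (k + 1)).image (fun j : ℕ => j • x) -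
          (Finset.range (k + 1)).image (fun j : ℕ => j • x) +
          (Finset.range (k + 1)).image (fun j : ℕ => j • x)) ⊆
          (Finset.Ico (-(k:ℤ)) (2 * k + 1)).image (fun j : ℤ => j • x) := by
        intro y hy
        rw [Finset.mem_add] at hy
        obtain ⟨z, hz, w, hw, rfl⟩ := hy
        rw [Finset.mem_sub] at hz
        obtain ⟨a, ha, b, hb, rfl⟩ := hz
        simp only [Finset.mem_image, Finset.mem_range] at ha hb hw
        obtain ⟨i, hi, rfl⟩ := ha
        obtain ⟨j, hj, rfl⟩ := hb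
        obtain ⟨l, hl, rfl⟩ := hw
        simp only [Finset.mem_image, Finset.mem_Ico]
        refine ⟨(i:ℤ) - j + l, ⟨by omega, by omega⟩, ?_⟩
        rw [add_zsmul, sub_zsmul, natCast_zsmul, natCast_zsmul, natCast_zsmul, ← sub_eq_add_neg]
      refine (Finset.card_le_card hsub).trans (Finset.card_image_le.trans ?_)
      rw [Int.card_Ico]
      omega
  · push Not at hcase
    obtain ⟨V, hV, hVj⟩ := hcase
    obtain ⟨E, hEf, hEU, hEk⟩ := exists_subgroup hu V hV (k + 1)
      (fun x hx => hVj x hx) (k + 1) U hU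
    refine ⟨hEf.toFinset, ?_, ?_, ?_, ?_⟩
    · rw [← Set.ncard_eq_toFinset_card _ hEf]; omega
    · rw [← Set.ncard_eq_toFinset_card _ hEf]; omega
    · intro a ha b hb
      simp only [Set.Finite.mem_toFinset, SetLike.mem_coe] at ha hb
      exact hEU (E.sub_mem ha hb)
    · have : hEf.toFinset - hEf.toFinset + hEf.toFinset ⊆ hEf.toFinset := by
        intro y hy
        rw [Finset.mem_add] at hy
        obtain ⟨z, hz, w, hw, rfl⟩ := hy
        rw [Finset.mem_sub] at hz
        obtain ⟨a, ha, b, hb, rfl⟩ := hz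
        simp only [Set.Finite.mem_toFinset, SetLike.mem_coe] at ha hb hw ⊢
        exact E.add_mem (E.sub_mem ha hb) hw
      have := Finset.card_le_card this
      omega

/-- Key lemma: finite `F` near `0` and Borel `A` such that each translate of `F` meets `A`,
but only in a small proportion of points. -/
lemma key [PolishSpace G] [MeasurableSpace G] [BorelSpace G] [DecidableEq G]
    (hu : Uncountable G) (U : Set G) (hU : U ∈ 𝓝 (0 : G)) (k : ℕ) :
    ∃ F : Finset G, F.Nonempty ∧ (∀ u ∈ F, u ∈ U) ∧ ∃ A : Set G, MeasurableSet A ∧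
      (∀ h, ∃ u ∈ F, h + u ∈ A) ∧
      (∀ h, ∀ T ⊆ F, (∀ u ∈ T, h + u ∈ A) → k * T.card ≤ F.card) := by
  classical
  obtain ⟨E, hEk, hE0, hEU, hE3⟩ := exists_E hu U hU (3 * k)
  have hne : E.Nonempty := Finset.card_pos.mp hE0
  obtain ⟨e0, he0⟩ := hne
  have h0 : (0 : G) ∈ E - E := Finset.mem_sub.mpr ⟨e0, he0, e0, he0, sub_self _⟩
  have hsym : ∀ d ∈ E - E, -d ∈ E - E := by
    intro d hd
    obtain ⟨a, ha, b, hb, rfl⟩ := Finset.mem_sub.mp hd
    exact Finset.mem_sub.mpr ⟨b, hb, a, ha, by abel⟩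
  obtain ⟨A, hAm, hAsep, hAcov⟩ := exists_sep (E - E) h0 hsym
  refine ⟨E - E, ⟨0, h0⟩, ?_, A, hAm, hAcov, ?_⟩
  · intro u hu
    obtain ⟨a, ha, b, hb, rfl⟩ := Finset.mem_sub.mp hu
    exact hEU a ha b hb
  · intro h T hT hTA
    have hinj : Set.InjOn (fun p : G × G => p.1 + p.2) ((T ×ˢ E : Finset (G × G)) : Set (G × G)) := by
      rintro ⟨u, e⟩ hue ⟨u', e'⟩ hue' heq
      simp only [Finset.coe_product, Set.mem_prod, Finset.mem_coe] at hue hue' heq
      have h1 : (h + u) - (h + u') ∈ E - E := by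
        refine Finset.mem_sub.mpr ⟨e', hue'.2, e, hue.2, ?_⟩
        rw [sub_eq_sub_iff_add_eq_add]
        have : e' + (h + u') = h + (u' + e') := by abel
        rw [this, ← heq]
        abel
      have h2 := hAsep _ (hTA u hue.1) _ (hTA u' hue'.1) h1
      have h3 : u = u' := by simpa using h2
      subst h3
      have h4 : e = e' := by simpa using heq
      rw [h4]
    have hcard : (T ×ˢ E).card ≤ (E - E + E).card := by
      rw [← Finset.card_image_of_injOn hinj]
      apply Finset.card_le_card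
      intro y hy
      obtain ⟨⟨u, e⟩, hue, rfl⟩ := Finset.mem_image.mp hy
      rw [Finset.mem_product] at hue
      exact Finset.mem_add.mpr ⟨u, hT hue.1, e, hue.2, rfl⟩
    rw [Finset.card_product] at hcard
    have h3 : T.card * E.card ≤ 3 * E.card := hcard.trans hE3
    have h4 : T.card ≤ 3 := Nat.le_of_mul_le_mul_right h3 hE0
    have h5 : E.card ≤ (E - E).card := by
      have : (E.image (fun x => x - e0)) ⊆ E - E := by
        intro y hy
        obtain ⟨x, hx, rfl⟩ := Finset.mem_image.mp hy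
        exact Finset.mem_sub.mpr ⟨x, hx, e0, he0, rfl⟩
      have h6 := Finset.card_le_card this
      rwa [Finset.card_image_of_injective _ sub_left_injective] at h6
    calc k * T.card ≤ k * 3 := Nat.mul_le_mul_left _ h4
      _ = 3 * k := by ring
      _ ≤ E.card := hEk
      _ ≤ _ := h5

end Pool.Agent.Helper61.Haar
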