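import Mathlib
import Pool.Agent.Helper61.HaarA

set_option autoImplicit false

namespace Pool.Agent.Helper61.Haar

open TopologicalSpace Topology MeasureTheory Filter
open scoped Pointwise ENNReal

/-- The compact product group. -/
abbrev Kt (m : ℕ → ℕ) : Type := (n : ℕ) → ZMod (m n)

lemma kt_add_same (m : ℕ → ℕ) (x : Kt m) (n : ℕ) (u : ZMod (m n)) :
    (x + Pi.single n u : Kt m) n = x n + u := by
  simp

lemma kt_add_ne (m : ℕ → ℕ) (x : Kt m) (n : ℕ) (u : ZMod (m n)) (i : ℕ) (h : i ≠ n) :
    (x + Pi.single n u : Kt m) i = x i := by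
  simp [Pi.single_eq_of_ne h]

/-- A measurable set meeting each fibre of a coordinate in few points has small measure. -/
lemma kt_measure_le (m : ℕ → ℕ) [∀ n, NeZero (m n)] (ν : Measure (Kt m))
    [ν.IsAddRightInvariant] (hν : ν Set.univ = 1) (Z : Set (Kt m)) (hZm : MeasurableSet Z)
    (n : ℕ)
    (hfew : ∀ x : Kt m, ∀ T : Finset (ZMod (m n)), (∀ u ∈ T, (x + Pi.single n u : Kt m) ∈ Z) →
      2 ^ n * T.card ≤ m n) : ν Z ≤ (2⁻¹ : ℝ≥0∞) ^ n := by
  classical
  let φ : ZMod (m n) → Kt m → ℝ≥0∞ := fun u x =>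
    Z.indicator (1 : Kt m → ℝ≥0∞) (x + Pi.single n u : Kt m)
  have hφm : ∀ u, Measurable (φ u) := fun u =>
    (measurable_one.indicator hZm).comp (measurable_add_const _)
  have hφi : ∀ u, ∫⁻ x, φ u x ∂ν = ν Z := by
    intro u
    have h0 := lintegral_add_right_eq_self (μ := ν)
      (fun x => Z.indicator (1 : Kt m → ℝ≥0∞) x) (Pi.single n u : Kt m)
    rw [lintegral_indicator_one hZm] at h0
    exact h0
  have h1 : ∫⁻ x, ∑ u : ZMod (m n), φ u x ∂ν = m n * ν Z := by
    rw [lintegral_finsetSum _ (fun u _ => hφm u)]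
    simp only [hφi, Finset.sum_const, Finset.card_univ, ZMod.card, nsmul_eq_mul]
  have h2 : ∀ x : Kt m, (2:ℝ≥0∞) ^ n * ∑ u : ZMod (m n), φ u x ≤ m n := by
    intro x
    have h4 := hfew x (Finset.univ.filter (fun u : ZMod (m n) => (x + Pi.single n u : Kt m) ∈ Z))
      (fun u hu' => (Finset.mem_filter.mp hu').2)
    have h3 : ∑ u : ZMod (m n), φ u x =
        ((Finset.univ.filter (fun u : ZMod (m n) => (x + Pi.single n u : Kt m) ∈ Z)).card
          : ℝ≥0∞) := by
      rw [Finset.card_filter, Nat.cast_sum]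
      refine Finset.sum_congr rfl fun u _ => ?_
      change Z.indicator (1 : Kt m → ℝ≥0∞) (x + Pi.single n u : Kt m) = _
      by_cases h : (x + Pi.single n u : Kt m) ∈ Z
      · rw [Set.indicator_of_mem h, if_pos h, Pi.one_apply, Nat.cast_one]
      · rw [Set.indicator_of_notMem h, if_neg h, Nat.cast_zero]
    rw [h3]
    generalize (Finset.univ.filter (fun u : ZMod (m n) => (x + Pi.single n u : Kt m) ∈ Z)).card = c
      at h4
    calc (2:ℝ≥0∞) ^ n * (c : ℝ≥0∞) = ((2 ^ n * c : ℕ) : ℝ≥0∞) := by push_cast; rfl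
      _ ≤ (m n : ℝ≥0∞) := Nat.cast_le.mpr h4
  have h3 : (2:ℝ≥0∞) ^ n * (m n * ν Z) ≤ m n := by
    have h4 : ∫⁻ x, (2:ℝ≥0∞) ^ n * ∑ u : ZMod (m n), φ u x ∂ν ≤ ∫⁻ _, (m n : ℝ≥0∞) ∂ν :=
      lintegral_mono h2
    rw [lintegral_const_mul' _ _ (ENNReal.pow_ne_top (by simp)), h1, lintegral_const, hν,
      mul_one] at h4
    exact h4
  have hm0 : (m n : ℝ≥0∞) ≠ 0 := by
    have := NeZero.ne (m n)
    exact_mod_cast this
  have hmt : (m n : ℝ≥0∞) ≠ ∞ := ENNReal.natCast_ne_top _
  have h5 : (m n : ℝ≥0∞) * ((2:ℝ≥0∞) ^ n * ν Z) ≤ m n * 1 := by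
    calc (m n : ℝ≥0∞) * ((2:ℝ≥0∞) ^ n * ν Z) = (2:ℝ≥0∞) ^ n * (m n * ν Z) := by ring
      _ ≤ m n := h3
      _ = m n * 1 := (mul_one _).symm
  have h6 : (2:ℝ≥0∞) ^ n * ν Z ≤ 1 := (ENNReal.mul_le_mul_iff_right hm0 hmt).mp h5
  rw [← ENNReal.inv_pow, ← one_div, ENNReal.le_div_iff_mul_le (by simp) (by simp), mul_comm]
  exact h6

theorem decomposition (G : Type) [TopologicalSpace G] [AddCommGroup G] [IsTopologicalAddGroup G]
    [PolishSpace G] [MeasurableSpace G] [BorelSpace G] (hu : Uncountable G) :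
      ∃ A B : Set G, A ∪ B = Set.univ ∧
        (∃ C : Set G, MeasurableSet C ∧ A ⊆ C ∧
          ∃ (K : Type) (t : TopologicalSpace K),
            CompactSpace K ∧ TopologicalSpace.MetrizableSpace K ∧ Nonempty K ∧
            ∃ f : K → G, Continuous f ∧
              ∀ g : G, IsMeagre (f ⁻¹' ((fun x => x + g) ⁻¹' C))) ∧
        (∃ C : Set G, MeasurableSet C ∧ B ⊆ C ∧
          ∃ μ : MeasureTheory.Measure G, MeasureTheory.IsProbabilityMeasure μ ∧
            ∀ g : G, μ ((fun x => x + g) ⁻¹' C) = 0) := by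
  classical
  let := upgradeIsCompletelyMetrizable G
  -- neighbourhoods adapted to finite sets of partial sums
  have hU : ∀ (S : Finset G) (n : ℕ),
      {u : G | ∀ s ∈ S, dist s (s + u) < 1 / 2 / 2 ^ n} ∈ 𝓝 (0 : G) := by
    intro S n
    have h1 : ∀ s : G, {u : G | dist s (s + u) < 1 / 2 / 2 ^ n} ∈ 𝓝 (0 : G) := by
      intro s
      have hc : Continuous (fun u : G => dist s (s + u)) := by fun_prop
      apply (isOpen_lt hc continuous_const).mem_nhds
      simp only [Set.mem_ofPred_eq, add_zero, dist_self]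
      positivity
    have h2 := (Filter.biInter_finset_mem S).mpr (fun s _ => h1 s)
    filter_upwards [h2] with u hu' s hs
    simp only [Set.mem_iInter, Set.mem_ofPred_eq] at hu'
    exact hu' s hs
  choose F hFne hFU A hAm hcov hcount using fun (S : Finset G) (n : ℕ) =>
    key hu _ (hU S n) (2 ^ n)
  let Sn : ℕ → Finset G := fun n => Nat.rec {0} (fun n S => S + F S n) n
  have hS0 : Sn 0 = {0} := rfl
  have hSs : ∀ n, Sn (n + 1) = Sn n + F (Sn n) n := fun n => rfl
  let Fn : ℕ → Finset G := fun n => F (Sn n) n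
  let An : ℕ → Set G := fun n => A (Sn n) n
  let m : ℕ → ℕ := fun n => (Fn n).card
  have hm : ∀ n, NeZero (m n) := fun n => ⟨(Finset.card_pos.mpr (hFne _ _)).ne'⟩
  let e : ∀ n, ZMod (m n) ≃ (Fn n : Finset G) := fun n =>
    Fintype.equivOfCardEq (by rw [ZMod.card, Fintype.card_coe])
  let v : ∀ n, ZMod (m n) → G := fun n x => (e n x).1
  have hvF : ∀ n x, v n x ∈ Fn n := fun n x => (e n x).2
  let s : Kt m → ℕ → G := fun x n => ∑ i ∈ Finset.range n, v i (x i)
  have hss : ∀ x n, s x (n + 1) = s x n + v n (x n) := fun x n => Finset.sum_range_succ _ _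
  have hsmem : ∀ x n, s x n ∈ Sn n := by
    intro x n
    induction n with
    | zero => rw [hS0]; simp [s]
    | succ n ih =>
      rw [hss, hSs]
      exact Finset.add_mem_add ih (hvF n _)
  have hdist : ∀ x n, dist (s x n) (s x (n + 1)) ≤ 1 / 2 / 2 ^ n := by
    intro x n
    rw [hss]
    exact (hFU (Sn n) n (v n (x n)) (hvF n _) (s x n) (hsmem x n)).le
  have hlim : ∀ x, ∃ y, Tendsto (s x) atTop (𝓝 y) := fun x =>
    cauchySeq_tendsto_of_complete (cauchySeq_of_le_geometric_two (hdist x))
  choose f hf using hlim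
  have hfd : ∀ x n, dist (s x n) (f x) ≤ 1 / 2 ^ n := fun x n =>
    dist_le_of_le_geometric_two_of_tendsto (hdist x) (hf x) n
  have hsc : ∀ n, Continuous (fun x => s x n) := by
    intro n
    refine continuous_finsetSum _ fun i _ => ?_
    exact (continuous_of_discreteTopology (f := v i)).comp (continuous_apply i)
  have hfc : Continuous f := by
    have hT : TendstoUniformly (fun n x => s x n) f atTop := by
      rw [Metric.tendstoUniformly_iff]
      intro ε hε
      have h1 : Tendsto (fun n : ℕ => (1 : ℝ) / 2 ^ n) atTop (𝓝 0) := by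
        have := tendsto_pow_atTop_nhds_zero_of_lt_one (r := (1 / 2 : ℝ)) (by norm_num)
          (by norm_num)
        simpa [one_div, inv_pow] using this
      filter_upwards [h1.eventually (gt_mem_nhds hε)] with n hn x
      rw [dist_comm]
      exact (hfd x n).trans_lt hn
    exact hT.continuous (Frequently.of_forall hsc)
  -- change of one coordinate
  have hshift : ∀ (x : Kt m) (n : ℕ) (u : ZMod (m n)),
      f (x + Pi.single n u : Kt m) = (f x - v n (x n)) + v n (x n + u) := by
    intro x n u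
    have h1 : ∀ k, n < k → s (x + Pi.single n u : Kt m) k = (s x k - v n (x n)) + v n (x n + u) := by
      intro k hk
      have h2 : s (x + Pi.single n u : Kt m) k - s x k =
          v n (x n + u) - v n (x n) := by
        simp only [s]
        rw [← Finset.sum_sub_distrib, Finset.sum_eq_single n]
        · rw [kt_add_same]
        · intro b _ hb
          rw [kt_add_ne m x n u b hb, sub_self]
        · intro h
          exact absurd (Finset.mem_range.mpr hk) h
      have h3 : s (x + Pi.single n u : Kt m) k = (s (x + Pi.single n u : Kt m) k - s x k) + s x k := by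
        abel
      rw [h3, h2]
      abel
    have h2 : Tendsto (fun k => (s x k - v n (x n)) + v n (x n + u)) atTop
        (𝓝 ((f x - v n (x n)) + v n (x n + u))) :=
      ((hf x).sub_const _).add_const _
    refine tendsto_nhds_unique (hf (x + Pi.single n u : Kt m)) (h2.congr' ?_)
    filter_upwards [eventually_gt_atTop n] with k hk
    exact (h1 k hk).symm
  have hhit : ∀ (g : G) (x : Kt m) (n : ℕ), ∃ u : ZMod (m n),
      f (x + Pi.single n u : Kt m) + g ∈ An n := by
    intro g x n
    obtain ⟨w, hw, hwA⟩ := hcov (Sn n) n (f x - v n (x n) + g)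
    refine ⟨(e n).symm ⟨w, hw⟩ - x n, ?_⟩
    rw [hshift, add_sub_cancel]
    have : v n ((e n).symm ⟨w, hw⟩) = w := by simp [v]
    rw [this]
    have h3 : f x - v n (x n) + w + g = f x - v n (x n) + g + w := by abel
    rw [h3]
    exact hwA
  have hfew : ∀ (g : G) (x : Kt m) (n : ℕ) (T : Finset (ZMod (m n))),
      (∀ u ∈ T, f (x + Pi.single n u : Kt m) + g ∈ An n) → 2 ^ n * T.card ≤ m n := by
    intro g x n T hT
    have h1 : (T.image (fun u => v n (x n + u))).card = T.card := by
      apply Finset.card_image_of_injective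
      intro a b hab
      have := (e n).injective (Subtype.ext hab)
      exact add_left_cancel this
    rw [← h1]
    apply hcount (Sn n) n (f x - v n (x n) + g)
    · intro y hy
      obtain ⟨u, -, rfl⟩ := Finset.mem_image.mp hy
      exact hvF n _
    · intro y hy
      obtain ⟨u, hu', rfl⟩ := Finset.mem_image.mp hy
      have h2 := hT u hu'
      rw [hshift] at h2
      have h3 : f x - v n (x n) + g + v n (x n + u) = f x - v n (x n) + v n (x n + u) + g := by
        abel
      rw [h3]
      exact h2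
  have hAnm : ∀ n, MeasurableSet (An n) := fun n => hAm _ _
  -- the two sets
  let M : Set G := ⋃ k : ℕ, ⋂ n : ℕ, ⋂ _ : k ≤ n, (An n)ᶜ
  have hMm : MeasurableSet M := by
    refine MeasurableSet.iUnion fun k => MeasurableSet.iInter fun n => ?_
    exact MeasurableSet.iInter fun _ => (hAnm n).compl
  refine ⟨M, Mᶜ, Set.union_compl_self M, ⟨M, hMm, subset_rfl, Kt m, inferInstance, inferInstance,
    inferInstance, ⟨fun _ => 0⟩, f, hfc, ?_⟩, ⟨Mᶜ, hMm.compl, subset_rfl, ?_⟩⟩
  · -- Haar meager part
    intro g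
    have hpre : f ⁻¹' ((fun x => x + g) ⁻¹' M) =
        ⋃ k : ℕ, {x : Kt m | ∀ n, k ≤ n → f x + g ∉ An n} := by
      ext x
      simp only [M, Set.mem_preimage, Set.mem_iUnion, Set.mem_iInter, Set.mem_compl_iff,
        Set.mem_ofPred_eq]
    rw [hpre]
    refine isMeagre_iUnion fun k => ?_
    set D : Set (Kt m) := {x : Kt m | ∀ n, k ≤ n → f x + g ∉ An n} with hD
    have hDm : MeasurableSet D := by
      have : D = ⋂ n : ℕ, ⋂ _ : k ≤ n, (fun x => f x + g) ⁻¹' (An n)ᶜ := by
        ext x
        simp [hD]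
      rw [this]
      refine MeasurableSet.iInter fun n => MeasurableSet.iInter fun _ => ?_
      exact (by fun_prop : Continuous (fun x => f x + g)).measurable (hAnm n).compl
    obtain ⟨U, hUo, hDU⟩ := hDm.residualEq_isOpen
    have hUD : IsMeagre (U \ D) := by
      have : (U \ D)ᶜ ∈ residual (Kt m) := by
        filter_upwards [hDU] with x hx
        have hx' : (x ∈ D) = (x ∈ U) := hx
        simp only [Set.mem_compl_iff, Set.mem_sdiff, not_and, not_not]
        rw [hx']
        exact id
      exact this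
    have hDU' : IsMeagre (D \ U) := by
      have : (D \ U)ᶜ ∈ residual (Kt m) := by
        filter_upwards [hDU] with x hx
        have hx' : (x ∈ D) = (x ∈ U) := hx
        simp only [Set.mem_compl_iff, Set.mem_sdiff, not_and, not_not]
        rw [hx']
        exact id
      exact this
    have hUe : U = ∅ := by
      by_contra hne
      obtain ⟨x0, hx0⟩ := Set.nonempty_iff_ne_empty.mpr hne
      obtain ⟨I, w, hw, hIw⟩ := isOpen_pi_iff.mp hUo x0 hx0
      obtain ⟨n, hnk, hnI⟩ : ∃ n, k ≤ n ∧ n ∉ I := by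
        obtain ⟨n, hn1, hn2⟩ := (Set.Ici_infinite k).exists_notMem_finset I
        exact ⟨n, hn1, hn2⟩
      set W : Set (Kt m) := (I : Set ℕ).pi w with hW
      have hWo : IsOpen W := isOpen_set_pi I.finite_toSet fun i hi => (hw i hi).1
      have hWne : W.Nonempty := ⟨x0, fun i hi => (hw i hi).2⟩
      have hWshift : ∀ x ∈ W, ∀ u : ZMod (m n), (x + Pi.single n u : Kt m) ∈ W := by
        intro x hx u i hi
        have hne : i ≠ n := by
          rintro rfl
          exact hnI hi
        rw [kt_add_ne m x n u i hne]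
        exact hx i hi
      have hWsub : W ⊆ ⋃ u : ZMod (m n), (fun x : Kt m => (x + Pi.single n u : Kt m)) ⁻¹' (U \ D) := by
        intro x hx
        obtain ⟨u, hu'⟩ := hhit g x n
        refine Set.mem_iUnion.mpr ⟨u, hIw (hWshift x hx u), ?_⟩
        intro h
        exact h n hnk hu'
      have hWm : IsMeagre W := by
        refine IsMeagre.mono hWsub (isMeagre_iUnion fun u => ?_)
        exact hUD.preimage_of_isOpenMap (continuous_add_const _)
          (Homeomorph.addRight (Pi.single n u : Kt m)).isOpenMap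
      exact not_isMeagre_of_isOpen hWo hWne hWm
    rw [hUe, Set.sdiff_empty] at hDU'
    exact hDU'
  · -- Haar null part
    let ν : Measure (Kt m) := Measure.addHaarMeasure (⊤ : PositiveCompacts (Kt m))
    have hν1 : ν Set.univ = 1 := by
      have := Measure.addHaarMeasure_self (K₀ := (⊤ : PositiveCompacts (Kt m)))
      simpa [ν] using this
    have hνp : IsProbabilityMeasure ν := ⟨hν1⟩
    refine ⟨ν.map f, Measure.isProbabilityMeasure_map hfc.aemeasurable, fun g => ?_⟩
    rw [Measure.map_apply hfc.measurable ((measurable_add_const g) hMm.compl)]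
    have hpre : f ⁻¹' ((fun x => x + g) ⁻¹' Mᶜ) =
        {x : Kt m | ∃ᶠ n in atTop, f x + g ∈ An n} := by
      ext x
      simp only [M, Set.mem_preimage, Set.mem_compl_iff, Set.mem_iUnion, Set.mem_iInter,
        Set.mem_ofPred_eq, Filter.frequently_atTop]
      push Not
      rfl
    rw [hpre]
    apply MeasureTheory.measure_setOfPred_frequently_eq_zero
    have hbound : ∀ n, ν {x | f x + g ∈ An n} ≤ (2⁻¹ : ℝ≥0∞) ^ n := by
      intro n
      have hZm : MeasurableSet {x : Kt m | f x + g ∈ An n} :=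
        (by fun_prop : Continuous (fun x => f x + g)).measurable (hAnm n)
      exact kt_measure_le m ν hν1 _ hZm n (fun x T hT => hfew g x n T hT)
    refine ne_top_of_le_ne_top ?_ (ENNReal.tsum_le_tsum hbound)
    rw [ENNReal.tsum_geometric]
    simp

end Pool.Agent.Helper61.Haar
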